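import Mathlib

set_option autoImplicit false

/-! # The graph lemma behind Balog–Szemerédi–Gowers -/

open Finset

namespace Pool.Agent.H217R3.AK

open Classical in
theorem graph {α β : Type*} (X : Finset α) (Y : Finset β)
    (adj : α → β → Prop) (L : ℝ) (hL : 0 < L) (hX : X.Nonempty) (hY : Y.Nonempty)
    (h : (X.card : ℝ) * Y.card ≤ L * ∑ y ∈ Y, ((X.filter (fun x => adj x y)).card : ℝ)) :
    ∃ X1 ⊆ X, ∃ X' ⊆ X1, (X.card : ℝ) ≤ 2 * L * X1.card ∧ (X1.card : ℝ) ≤ 2 * X'.card ∧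
      ∀ x ∈ X', ∀ x' ∈ X', (X1.card : ℝ) ≤ 2 * ((X1.filter (fun x'' =>
        ((Y.card : ℝ) ≤ 16 * L ^ 2 * (Y.filter (fun y => adj x y ∧ adj x'' y)).card) ∧
        ((Y.card : ℝ) ≤ 16 * L ^ 2 * (Y.filter (fun y => adj x' y ∧ adj x'' y)).card))).card : ℝ) := by
  have hXc : (0 : ℝ) < X.card := by exact_mod_cast hX.card_pos
  have hYc : (0 : ℝ) < Y.card := by exact_mod_cast hY.card_pos
  set cod : α → α → ℝ := fun x x' => ((Y.filter (fun y => adj x y ∧ adj x' y)).card : ℝ) with hcod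
  set a : α → β → ℝ := fun x y => if adj x y then 1 else 0 with ha
  set b : α → α → ℝ := fun x x' => if (Y.card : ℝ) ≤ 16 * L ^ 2 * cod x x' then 0 else 1 with hb
  have ha0 : ∀ x y, 0 ≤ a x y := fun x y => by simp only [ha]; split_ifs <;> norm_num
  have hb0 : ∀ x y, 0 ≤ b x y := fun x y => by simp only [hb]; split_ifs <;> norm_num
  have hcoda : ∀ x x', cod x x' = ∑ y ∈ Y, a x y * a x' y := by
    intro x x'
    simp only [hcod, ha, Finset.card_filter, Nat.cast_sum]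
    refine Finset.sum_congr rfl fun y _ => ?_
    by_cases h1 : adj x y <;> by_cases h2 : adj x' y <;> simp [h1, h2]
  have hdeg : ∀ y, ((X.filter (fun x => adj x y)).card : ℝ) = ∑ x ∈ X, a x y := by
    intro y
    simp only [ha, Finset.card_filter, Nat.cast_sum]
    refine Finset.sum_congr rfl fun x _ => ?_
    by_cases h1 : adj x y <;> simp [h1]
  set deg : β → ℝ := fun y => ((X.filter (fun x => adj x y)).card : ℝ) with hdegd
  set bc : β → ℝ := fun y => ∑ x ∈ X, ∑ x' ∈ X, a x y * a x' y * b x x' with hbc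
  have hbcsum : 16 * L ^ 2 * ∑ y ∈ Y, bc y ≤ (X.card : ℝ) ^ 2 * Y.card := by
    have h1 : ∑ y ∈ Y, bc y = ∑ x ∈ X, ∑ x' ∈ X, b x x' * cod x x' := by
      simp only [hbc]
      rw [Finset.sum_comm]
      refine Finset.sum_congr rfl fun x _ => ?_
      rw [Finset.sum_comm]
      refine Finset.sum_congr rfl fun x' _ => ?_
      rw [hcoda, Finset.mul_sum]
      exact Finset.sum_congr rfl fun y _ => by ring
    rw [h1, Finset.mul_sum]
    calc ∑ x ∈ X, 16 * L ^ 2 * ∑ x' ∈ X, b x x' * cod x x'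
        ≤ ∑ x ∈ X, ∑ x' ∈ X, (Y.card : ℝ) := by
          refine Finset.sum_le_sum fun x _ => ?_
          rw [Finset.mul_sum]
          refine Finset.sum_le_sum fun x' _ => ?_
          simp only [hb]
          split_ifs with h2
          · rw [zero_mul, mul_zero]; exact hYc.le
          · rw [one_mul]; exact (not_le.1 h2).le
      _ = (X.card : ℝ) ^ 2 * Y.card := by
          rw [Finset.sum_const, Finset.sum_const, nsmul_eq_mul, nsmul_eq_mul]; ring
  have hcs : (X.card : ℝ) ^ 2 * Y.card ≤ L ^ 2 * ∑ y ∈ Y, deg y ^ 2 := by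
    have h1 : (∑ y ∈ Y, deg y) ^ 2 ≤ Y.card * ∑ y ∈ Y, deg y ^ 2 := sq_sum_le_card_mul_sum_sq
    have h2 : ((X.card : ℝ) * Y.card) ^ 2 ≤ (L * ∑ y ∈ Y, deg y) ^ 2 :=
      pow_le_pow_left₀ (mul_nonneg hXc.le hYc.le) h 2
    have h3 : (X.card : ℝ) ^ 2 * Y.card * Y.card ≤ (L ^ 2 * ∑ y ∈ Y, deg y ^ 2) * Y.card := by
      calc (X.card : ℝ) ^ 2 * Y.card * Y.card = ((X.card : ℝ) * Y.card) ^ 2 := by ring
        _ ≤ (L * ∑ y ∈ Y, deg y) ^ 2 := h2
        _ = L ^ 2 * (∑ y ∈ Y, deg y) ^ 2 := by ring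
        _ ≤ L ^ 2 * (Y.card * ∑ y ∈ Y, deg y ^ 2) := mul_le_mul_of_nonneg_left h1 (sq_nonneg _)
        _ = _ := by ring
    exact le_of_mul_le_mul_right h3 hYc
  -- a good `y`
  obtain ⟨y, hy, hyg⟩ : ∃ y ∈ Y, (X.card : ℝ) ^ 2 ≤ 2 * L ^ 2 * (deg y ^ 2 - 8 * bc y) := by
    by_contra hcon
    push Not at hcon
    have h1 : ∑ y ∈ Y, 2 * L ^ 2 * (deg y ^ 2 - 8 * bc y) < ∑ _y ∈ Y, (X.card : ℝ) ^ 2 :=
      Finset.sum_lt_sum_of_nonempty hY hcon
    rw [Finset.sum_const, nsmul_eq_mul, ← Finset.mul_sum, Finset.sum_sub_distrib,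
      ← Finset.mul_sum] at h1
    nlinarith
  set X1 := X.filter (fun x => adj x y) with hX1
  have hdeg1 : deg y = X1.card := rfl
  have hX1pos : (X.card : ℝ) ≤ 2 * L * X1.card := by
    have hbc0 : 0 ≤ bc y := Finset.sum_nonneg fun x _ => Finset.sum_nonneg fun x' _ =>
      mul_nonneg (mul_nonneg (ha0 _ _) (ha0 _ _)) (hb0 _ _)
    apply le_of_sq_le_sq _ (mul_nonneg (by linarith) (Nat.cast_nonneg _))
    have h2 : 2 * L ^ 2 * (deg y ^ 2 - 8 * bc y) ≤ (2 * L * (X1.card : ℝ)) ^ 2 := by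
      rw [hdeg1]
      have h3 : 0 ≤ L ^ 2 * bc y := mul_nonneg (sq_nonneg _) hbc0
      have h4 : 0 ≤ L ^ 2 * (X1.card : ℝ) ^ 2 := by positivity
      nlinarith
    exact hyg.trans h2
  have hbcle : 8 * bc y ≤ (X1.card : ℝ) ^ 2 := by
    have h1 : 0 < deg y ^ 2 - 8 * bc y := by
      by_contra h2
      have h3 : 2 * L ^ 2 * (deg y ^ 2 - 8 * bc y) ≤ 0 :=
        mul_nonpos_of_nonneg_of_nonpos (by positivity) (not_lt.1 h2)
      have h4 : 0 < (X.card : ℝ) ^ 2 := by positivity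
      linarith
    rw [hdeg1] at h1
    linarith
  have hX1c : (0 : ℝ) < X1.card := by
    by_contra h2
    have h3 : 2 * L * (X1.card : ℝ) ≤ 0 := mul_nonpos_of_nonneg_of_nonpos (by linarith) (not_lt.1 h2)
    linarith
  have hbcX1 : bc y = ∑ x ∈ X1, ∑ x' ∈ X1, b x x' := by
    simp only [hbc, hX1]
    rw [Finset.sum_filter]
    refine Finset.sum_congr rfl fun x _ => ?_
    by_cases h1 : adj x y
    · rw [if_pos h1, Finset.sum_filter]
      refine Finset.sum_congr rfl fun x' _ => ?_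
      by_cases h2 : adj x' y <;> simp [ha, h1, h2]
    · rw [if_neg h1]
      exact Finset.sum_eq_zero fun x' _ => by simp [ha, h1]
  set X' := X1.filter (fun x => 4 * ∑ x' ∈ X1, b x x' ≤ (X1.card : ℝ)) with hX'
  refine ⟨X1, Finset.filter_subset _ _, X', Finset.filter_subset _ _, hX1pos, ?_, ?_⟩
  · have h1 : (X1.card : ℝ) = X'.card +
        (X1.filter (fun x => ¬ 4 * ∑ x' ∈ X1, b x x' ≤ (X1.card : ℝ))).card := by
      rw [hX', ← Nat.cast_add, Finset.card_filter_add_card_filter_not]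
    have h2 : ((X1.filter (fun x => ¬ 4 * ∑ x' ∈ X1, b x x' ≤ (X1.card : ℝ))).card : ℝ) *
        X1.card ≤ 4 * bc y := by
      rw [hbcX1, ← nsmul_eq_mul, Finset.mul_sum]
      refine (Finset.card_nsmul_le_sum _ (fun x => 4 * ∑ x' ∈ X1, b x x') _ ?_).trans ?_
      · intro x hx
        rw [mem_filter] at hx
        exact (not_le.1 hx.2).le
      · exact Finset.sum_le_sum_of_subset_of_nonneg (Finset.filter_subset _ _)
          fun x _ _ => mul_nonneg (by norm_num) (Finset.sum_nonneg fun x' _ => hb0 _ _)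
    have h3 : ((X1.filter (fun x => ¬ 4 * ∑ x' ∈ X1, b x x' ≤ (X1.card : ℝ))).card : ℝ) * X1.card
        ≤ (X1.card / 2) * X1.card := by
      nlinarith
    have h4 := le_of_mul_le_mul_right h3 hX1c
    linarith
  · intro x hx x' hx'
    rw [hX', mem_filter] at hx hx'
    have h1 : (X1.card : ℝ) ≤ ((X1.filter (fun x'' =>
        ((Y.card : ℝ) ≤ 16 * L ^ 2 * (Y.filter (fun y => adj x y ∧ adj x'' y)).card) ∧
        ((Y.card : ℝ) ≤ 16 * L ^ 2 * (Y.filter (fun y => adj x' y ∧ adj x'' y)).card))).card : ℝ) +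
        (∑ z ∈ X1, b x z + ∑ z ∈ X1, b x' z) := by
      calc (X1.card : ℝ) = ∑ _z ∈ X1, (1 : ℝ) := by
            rw [Finset.sum_const, nsmul_eq_mul, mul_one]
        _ ≤ ∑ z ∈ X1, ((if ((Y.card : ℝ) ≤ 16 * L ^ 2 * (Y.filter (fun y => adj x y ∧ adj z y)).card) ∧
            ((Y.card : ℝ) ≤ 16 * L ^ 2 * (Y.filter (fun y => adj x' y ∧ adj z y)).card)
              then (1 : ℝ) else 0) + (b x z + b x' z)) := by
            refine Finset.sum_le_sum fun z _ => ?_
            have h3 := hb0 x z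
            have h4 := hb0 x' z
            by_cases h5 : (Y.card : ℝ) ≤ 16 * L ^ 2 * (Y.filter (fun y => adj x y ∧ adj z y)).card
            · by_cases h6 : (Y.card : ℝ) ≤ 16 * L ^ 2 * (Y.filter (fun y => adj x' y ∧ adj z y)).card
              · rw [if_pos ⟨h5, h6⟩]; linarith
              · rw [if_neg (fun h => h6 h.2)]
                have : b x' z = 1 := by simp only [hb, hcod]; rw [if_neg h6]
                linarith
            · rw [if_neg (fun h => h5 h.1)]
              have : b x z = 1 := by simp only [hb, hcod]; rw [if_neg h5]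
              linarith
        _ = _ := by
            rw [Finset.sum_add_distrib, Finset.sum_add_distrib, Finset.sum_boole]
    linarith [hx.2, hx'.2]

end Pool.Agent.H217R3.AK
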