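import Mathlib
import Pool.Agent.H24.Lib.R_seed8.H217R3.AK.Graph

set_option autoImplicit false

/-! # The Balog–Szemerédi–Gowers theorem (difference set form) -/

open Finset
open scoped Pointwise

namespace Pool.Agent.H217R3.AK

theorem num2 (K N x1 b D P c : ℝ) (hK : 0 < K) (hN : 0 < N) (hx1 : 0 < x1)
    (h1 : N ≤ 4 * K * x1) (h2 : x1 ≤ 2 * b) (hP0 : 0 ≤ P) (hP : P ≤ 2 * K * N) (hD0 : 0 ≤ D)
    (hc : N ≤ 64 * K ^ 2 * c) (hmain : D * (x1 / 2 * c ^ 2) ≤ P ^ 4) :
    D ≤ 2 ^ 22 * K ^ 10 * b := by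
  have hc0 : 0 < c := by
    by_contra h
    have : 64 * K ^ 2 * c ≤ 0 := mul_nonpos_of_nonneg_of_nonpos (by positivity) (not_lt.1 h)
    linarith
  have hb0 : 0 < b := by linarith
  -- `D * x1 * N^2 ≤ 2^17 K^8 N^4`
  have h3 : P ^ 4 ≤ (2 * K * N) ^ 4 := pow_le_pow_left₀ hP0 hP 4
  have h4 : N ^ 2 ≤ (64 * K ^ 2 * c) ^ 2 := pow_le_pow_left₀ hN.le hc 2
  have h5 : D * x1 * N ^ 2 ≤ 2 ^ 17 * K ^ 8 * N ^ 4 := by
    calc D * x1 * N ^ 2 ≤ D * x1 * (64 * K ^ 2 * c) ^ 2 := by
          apply mul_le_mul_of_nonneg_left h4; positivity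
      _ = 2 ^ 13 * K ^ 4 * (D * (x1 / 2 * c ^ 2)) := by ring
      _ ≤ 2 ^ 13 * K ^ 4 * (2 * K * N) ^ 4 := by
          apply mul_le_mul_of_nonneg_left (hmain.trans h3); positivity
      _ = 2 ^ 17 * K ^ 8 * N ^ 4 := by ring
  have h6 : D * x1 ≤ 2 ^ 17 * K ^ 8 * N ^ 2 := by
    have : D * x1 * N ^ 2 ≤ (2 ^ 17 * K ^ 8 * N ^ 2) * N ^ 2 := by
      calc _ ≤ _ := h5
        _ = _ := by ring
    exact le_of_mul_le_mul_right this (by positivity)
  have h7 : D * x1 ≤ (2 ^ 22 * K ^ 10 * b) * x1 := by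
    calc D * x1 ≤ 2 ^ 17 * K ^ 8 * N ^ 2 := h6
      _ = 2 ^ 17 * K ^ 8 * (N * N) := by ring
      _ ≤ 2 ^ 17 * K ^ 8 * ((4 * K * (2 * b)) * (4 * K * x1)) := by
          apply mul_le_mul_of_nonneg_left _ (by positivity)
          apply mul_le_mul _ h1 hN.le (by positivity)
          refine h1.trans ?_
          apply mul_le_mul_of_nonneg_left h2 (by positivity)
      _ = _ := by ring
  exact le_of_mul_le_mul_right h7 hx1

theorem bsg {G : Type*} [AddCommGroup G] [DecidableEq G] (A : Finset G) (hA : A.Nonempty) (K : ℝ)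
    (hK : 0 < K) (hE : (A.card : ℝ) ^ 3 ≤ K * (A.addEnergy A : ℕ)) :
    ∃ B ⊆ A, B.Nonempty ∧ (A.card : ℝ) ≤ 8 * K * B.card ∧
      ((B - B).card : ℝ) ≤ 2 ^ 22 * K ^ 10 * B.card := by
  classical
  have hN : (0 : ℝ) < A.card := by exact_mod_cast hA.card_pos
  set r : G → ℕ := fun s => ((A ×ˢ A).filter (fun p => p.1 + p.2 = s)).card with hr
  have hEs : (A.addEnergy A : ℕ) = ∑ s ∈ A + A, r s ^ 2 := by
    rw [Finset.addEnergy_eq_sum_sq']
  have hrsum : ∑ s ∈ A + A, r s = A.card ^ 2 := by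
    have h1 := Finset.card_eq_sum_card_fiberwise (f := fun p : G × G => p.1 + p.2)
      (s := A ×ˢ A) (t := A + A) (fun p hp => by
        rw [mem_coe, mem_product] at hp
        exact add_mem_add hp.1 hp.2)
    rw [Finset.card_product] at h1
    rw [sq]
    exact h1.symm
  have hrle : ∀ s, r s ≤ A.card := by
    intro s
    simp only [hr]
    apply Finset.card_le_card_of_injOn (fun p : G × G => p.1)
    · intro p hp
      rw [mem_coe, mem_filter, mem_product] at hp
      exact hp.1.1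
    · intro p hp q hq h
      rw [mem_coe, mem_filter, mem_product] at hp hq
      have h' : p.1 = q.1 := h
      refine Prod.ext h' ?_
      have := hp.2.trans hq.2.symm
      rw [h'] at this
      exact add_left_cancel this
  set P : Finset G := (A + A).filter (fun s => (A.card : ℝ) ≤ 2 * K * r s) with hP
  -- popular sums carry half of the energy
  have hPE : (A.card : ℝ) ^ 3 ≤ 2 * K * ∑ s ∈ P, (r s : ℝ) ^ 2 := by
    have h1 : ∑ s ∈ A + A, (r s : ℝ) ^ 2 = ∑ s ∈ P, (r s : ℝ) ^ 2 +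
        ∑ s ∈ (A + A).filter (fun s => ¬ (A.card : ℝ) ≤ 2 * K * r s), (r s : ℝ) ^ 2 :=
      (Finset.sum_filter_add_sum_filter_not _ _ _).symm
    have h2 : 2 * K * ∑ s ∈ (A + A).filter (fun s => ¬ (A.card : ℝ) ≤ 2 * K * r s), (r s : ℝ) ^ 2 ≤
        (A.card : ℝ) ^ 3 := by
      rw [Finset.mul_sum]
      calc ∑ s ∈ (A + A).filter (fun s => ¬ (A.card : ℝ) ≤ 2 * K * r s), 2 * K * (r s : ℝ) ^ 2
          ≤ ∑ s ∈ (A + A).filter (fun s => ¬ (A.card : ℝ) ≤ 2 * K * r s), (A.card : ℝ) * r s := by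
            refine Finset.sum_le_sum fun s hs => ?_
            rw [mem_filter] at hs
            have h3 := (not_le.1 hs.2).le
            calc 2 * K * (r s : ℝ) ^ 2 = (2 * K * r s) * r s := by ring
              _ ≤ A.card * r s := mul_le_mul_of_nonneg_right h3 (Nat.cast_nonneg _)
        _ ≤ ∑ s ∈ A + A, (A.card : ℝ) * r s :=
            Finset.sum_le_sum_of_subset_of_nonneg (Finset.filter_subset _ _)
              fun s _ _ => mul_nonneg hN.le (Nat.cast_nonneg _)
        _ = A.card * ((∑ s ∈ A + A, r s : ℕ) : ℝ) := by rw [← Finset.mul_sum]; push_cast; rfl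
        _ = (A.card : ℝ) ^ 3 := by rw [hrsum]; push_cast; ring
    have h3 : (A.card : ℝ) ^ 3 ≤ K * ∑ s ∈ A + A, (r s : ℝ) ^ 2 := by
      rw [hEs] at hE
      push_cast at hE
      exact hE
    rw [h1] at h3
    nlinarith
  have hPr : (A.card : ℝ) ^ 2 ≤ 2 * K * ∑ s ∈ P, (r s : ℝ) := by
    have h1 : ∑ s ∈ P, (r s : ℝ) ^ 2 ≤ A.card * ∑ s ∈ P, (r s : ℝ) := by
      rw [Finset.mul_sum]
      refine Finset.sum_le_sum fun s _ => ?_
      rw [sq]
      exact mul_le_mul_of_nonneg_right (by exact_mod_cast hrle s) (Nat.cast_nonneg _)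
    have h2 : (A.card : ℝ) ^ 2 * A.card ≤ (2 * K * ∑ s ∈ P, (r s : ℝ)) * A.card := by
      calc (A.card : ℝ) ^ 2 * A.card = (A.card : ℝ) ^ 3 := by ring
        _ ≤ 2 * K * ∑ s ∈ P, (r s : ℝ) ^ 2 := hPE
        _ ≤ 2 * K * (A.card * ∑ s ∈ P, (r s : ℝ)) := by
            apply mul_le_mul_of_nonneg_left h1 (by positivity)
        _ = _ := by ring
    exact le_of_mul_le_mul_right h2 hN
  have hPcard : (P.card : ℝ) ≤ 2 * K * A.card := by
    have h1 : (P.card : ℝ) * A.card ≤ 2 * K * ((A.card : ℝ) ^ 2) := by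
      rw [← nsmul_eq_mul]
      calc P.card • (A.card : ℝ) ≤ ∑ s ∈ P, 2 * K * (r s : ℝ) :=
            Finset.card_nsmul_le_sum _ _ _ fun s hs => (mem_filter.1 hs).2
        _ ≤ ∑ s ∈ A + A, 2 * K * (r s : ℝ) :=
            Finset.sum_le_sum_of_subset_of_nonneg (Finset.filter_subset _ _)
              fun s _ _ => mul_nonneg (by linarith) (Nat.cast_nonneg _)
        _ = 2 * K * ((∑ s ∈ A + A, r s : ℕ) : ℝ) := by rw [← Finset.mul_sum]; push_cast; rfl
        _ = _ := by rw [hrsum]; push_cast; rfl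
    have h2 : (P.card : ℝ) * A.card ≤ (2 * K * A.card) * A.card := by
      calc _ ≤ _ := h1
        _ = _ := by ring
    exact le_of_mul_le_mul_right h2 hN
  -- the graph of popular sums
  have hedge : ∑ y ∈ A, (A.filter (fun x => x + y ∈ P)).card = ∑ s ∈ P, r s := by
    have h1 : ((A ×ˢ A).filter (fun p : G × G => p.1 + p.2 ∈ P)).card = ∑ s ∈ P, r s := by
      rw [Finset.card_eq_sum_card_fiberwise (f := fun p : G × G => p.1 + p.2)
        (s := (A ×ˢ A).filter (fun p : G × G => p.1 + p.2 ∈ P)) (t := P)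
        (fun p hp => by rw [mem_coe, mem_filter] at hp; exact hp.2)]
      refine Finset.sum_congr rfl fun s hs => ?_
      simp only [hr]
      congr 1
      ext p
      simp only [mem_filter]
      constructor
      · rintro ⟨⟨h1, _⟩, h3⟩; exact ⟨h1, h3⟩
      · rintro ⟨h1, h3⟩; exact ⟨⟨h1, by rw [h3]; exact hs⟩, h3⟩
    rw [← h1, Finset.card_filter, Finset.sum_product_right]
    exact Finset.sum_congr rfl fun y _ => Finset.card_filter _ _
  obtain ⟨X1, hX1, X', hX', hc1, hc2, hgood⟩ := graph A A (fun x y => x + y ∈ P) (2 * K)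
    (by positivity) hA hA (by
      have h1 : ∑ y ∈ A, ((A.filter (fun x => x + y ∈ P)).card : ℝ) = ∑ s ∈ P, (r s : ℝ) := by
        have := congrArg (fun n : ℕ => (n : ℝ)) hedge
        push_cast at this
        exact this
      have h2 := hPr
      rw [← h1, sq] at h2
      convert h2)
  have hx1 : (0 : ℝ) < X1.card := by
    by_contra h
    have : 2 * (2 * K) * (X1.card : ℝ) ≤ 0 :=
      mul_nonpos_of_nonneg_of_nonpos (by positivity) (not_lt.1 h)
    linarith
  have hX'c : (0 : ℝ) < X'.card := by linarith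
  refine ⟨X', hX'.trans hX1, Finset.card_pos.1 (by exact_mod_cast hX'c), ?_, ?_⟩
  · calc (A.card : ℝ) ≤ 2 * (2 * K) * X1.card := hc1
      _ ≤ 2 * (2 * K) * (2 * X'.card) := mul_le_mul_of_nonneg_left hc2 (by positivity)
      _ = _ := by ring
  -- counting paths
  have hrep : ∀ d : G, ∃ p : G × G, d ∈ X' - X' → p.1 ∈ X' ∧ p.2 ∈ X' ∧ p.1 - p.2 = d := by
    intro d
    by_cases hd : d ∈ X' - X'
    · obtain ⟨u, hu, v, hv, huv⟩ := Finset.mem_sub.1 hd
      exact ⟨(u, v), fun _ => ⟨hu, hv, huv⟩⟩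
    · exact ⟨0, fun h => absurd h hd⟩
  choose p hp using hrep
  set Nb : G → G → Finset G := fun x z => A.filter (fun y => x + y ∈ P ∧ z + y ∈ P) with hNb
  set Z : G → G → Finset G := fun x x' => X1.filter (fun z =>
        ((A.card : ℝ) ≤ 16 * (2 * K) ^ 2 * (A.filter (fun y => x + y ∈ P ∧ z + y ∈ P)).card) ∧
        ((A.card : ℝ) ≤ 16 * (2 * K) ^ 2 * (A.filter (fun y => x' + y ∈ P ∧ z + y ∈ P)).card))
    with hZ
  set Ω : Finset (Σ _ : G, Σ _ : G, G × G) := (X' - X').sigma fun d =>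
    (Z (p d).1 (p d).2).sigma fun z => (Nb (p d).1 z) ×ˢ (Nb (p d).2 z) with hΩ
  have hΩle : Ω.card ≤ P.card ^ 4 := by
    have h4 : P.card ^ 4 = (P ×ˢ P ×ˢ P ×ˢ P).card := by
      simp only [Finset.card_product]; ring
    rw [h4]
    apply Finset.card_le_card_of_injOn (fun w : (Σ _ : G, Σ _ : G, G × G) =>
      ((p w.1).1 + w.2.2.1, w.2.1 + w.2.2.1, w.2.1 + w.2.2.2, (p w.1).2 + w.2.2.2))
    · rintro ⟨d, z, y1, y2⟩ hw
      simp only [hΩ, mem_coe, Finset.mem_sigma, mem_product, hNb, mem_filter] at hw ⊢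
      exact ⟨hw.2.2.1.2.1, hw.2.2.1.2.2, hw.2.2.2.2.2, hw.2.2.2.2.1⟩
    · rintro ⟨d, z, y1, y2⟩ hw ⟨d', z', y1', y2'⟩ hw' h
      simp only [hΩ, mem_coe, Finset.mem_sigma] at hw hw'
      simp only [Prod.mk.injEq] at h
      obtain ⟨h1, h2, h3, h4⟩ := h
      have hd : d = d' := by
        rw [← (hp d hw.1).2.2, ← (hp d' hw'.1).2.2]
        have e1 : (p d).1 - (p d).2 = ((p d).1 + y1) - (z + y1) + (z + y2) - ((p d).2 + y2) := by
          abel
        have e2 : (p d').1 - (p d').2 =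
            ((p d').1 + y1') - (z' + y1') + (z' + y2') - ((p d').2 + y2') := by abel
        rw [e1, e2, h1, h2, h3, h4]
      subst hd
      have hy1 : y1 = y1' := add_left_cancel h1
      have hy2 : y2 = y2' := add_left_cancel h4
      subst hy1
      subst hy2
      have hz : z = z' := add_right_cancel h2
      subst hz
      rfl
  set c : ℝ := (A.card : ℝ) / (64 * K ^ 2) with hc
  have hc0 : 0 ≤ c := by positivity
  have hΩge : ((X' - X').card : ℝ) * ((X1.card : ℝ) / 2 * c ^ 2) ≤ Ω.card := by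
    rw [hΩ, Finset.card_sigma, Nat.cast_sum, ← nsmul_eq_mul]
    apply Finset.card_nsmul_le_sum
    intro d hd
    obtain ⟨hp1, hp2, _⟩ := hp d hd
    rw [Finset.card_sigma, Nat.cast_sum]
    have h1 := hgood _ hp1 _ hp2
    have h1' : (X1.card : ℝ) ≤ 2 * (Z (p d).1 (p d).2).card := by
      simp only [hZ]
      convert h1
    have h2 : (X1.card : ℝ) / 2 ≤ (Z (p d).1 (p d).2).card := by linarith
    calc (X1.card : ℝ) / 2 * c ^ 2 ≤ (Z (p d).1 (p d).2).card * c ^ 2 :=
          mul_le_mul_of_nonneg_right h2 (sq_nonneg _)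
      _ ≤ _ := by
          rw [← nsmul_eq_mul]
          apply Finset.card_nsmul_le_sum
          intro z hz
          simp only [hZ, mem_filter] at hz
          have h3 : c ≤ ((Nb (p d).1 z).card : ℝ) := by
            rw [hc, div_le_iff₀ (by positivity)]
            simp only [hNb]
            nlinarith [hz.2.1]
          have h4 : c ≤ ((Nb (p d).2 z).card : ℝ) := by
            rw [hc, div_le_iff₀ (by positivity)]
            simp only [hNb]
            nlinarith [hz.2.2]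
          rw [Finset.card_product, Nat.cast_mul, sq]
          exact mul_le_mul h3 h4 hc0 (Nat.cast_nonneg _)
  apply num2 K A.card X1.card X'.card ((X' - X').card) P.card c hK hN hx1
  · calc (A.card : ℝ) ≤ 2 * (2 * K) * X1.card := hc1
      _ = _ := by ring
  · exact hc2
  · exact Nat.cast_nonneg _
  · exact hPcard
  · exact Nat.cast_nonneg _
  · rw [hc]
    have : (64 * K ^ 2 : ℝ) ≠ 0 := by positivity
    field_simp
    exact le_rfl
  · refine hΩge.trans ?_
    exact_mod_cast hΩle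

end Pool.Agent.H217R3.AK
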